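import Pool.Agent.H373R2.T7.Fund
import Pool.Agent.K6.H83.MC.Pow

set_option autoImplicit false
set_option maxHeartbeats 4000000

/-! # Mills-type constants for almost prime quadruplets

Mills: there is a constant `A` such that `⌊A^(3^l)⌋` is prime for all `l`. Here the primes are replaced by the almost
prime quadruplets `N, N + 2, N + 6, N + 8` and more generally by almost prime tuples of any prescribed admissible
patterns `H_l` with at most `k` elements (of any size): for every `lam > 1` and `s < 1` there are `r` and `δ > 0`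
such that for every sequence of functions `v_l t^(n_l)` (with positive nondecreasing exponents, each function at least
the `lam`-th power of the previous one) the set of the reals `t` for which, for ALL large `l`, the integer
`N = ⌊v_l t^(n_l)⌋` has the property that no prime `p ≤ N^(1/r)` divides any of the numbers `N + h`, `h ∈ H_l`, has
Hausdorff dimension at least `s` in every interval. In addition `N` may be prescribed modulo `M_l ≤ N^δ`.

Author: helper48. Method: the fundamental lemma of the sieve (`Pool.Agent.H373R2.T7.sys_fund`) in short intervals and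
the Cantor set construction `Pool.Agent.K6.H83.MC` (helper83). -/

namespace Pool.Agent.Results.MP_fc51f7_nt.MillsQuadruplets

open Filter Finset
open Pool.Agent.H373R2.T7

/-- no prime `p` divides all the products `∏ (m + h)`, `h ∈ H` -/
def Admissible (H : Finset ℕ) : Prop := ∀ p : ℕ, p.Prime → ∃ m : ℕ, ∀ h ∈ H, ¬ p ∣ m + h

/-- all prime factors of the numbers `N + h`, `h ∈ H`, exceed `N ^ (1 / r)`; and `N ≡ a` modulo `M` if
`M ≤ N ^ δ` -/
def Target (r : ℕ) (δ : ℝ) (H : Finset ℕ) (M a N : ℕ) : Prop :=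
  (∀ h ∈ H, ∀ p : ℕ, p.Prime → p ∣ N + h → (N : ℝ) ^ (1 / (r : ℝ)) < p) ∧
    ((M : ℝ) ≤ (N : ℝ) ^ δ → N ≡ a [MOD M])

theorem factor_low (k : ℕ) (hk : 1 ≤ k) (p ν : ℕ) (hp : p.Prime) (h1 : ν ≤ k) (h2 : ν + 1 ≤ p) :
    (1 - 1 / (p : ℝ)) ^ (4 * k ^ 2) ≤ 1 - (ν : ℝ) / p := by
  have hp0 : (0 : ℝ) < p := by exact_mod_cast hp.pos
  have hp1 : (1 : ℝ) ≤ p := by exact_mod_cast hp.one_lt.le
  have hk1 : (1 : ℝ) ≤ k := by exact_mod_cast hk
  have h1' : (ν : ℝ) ≤ k := by exact_mod_cast h1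
  have h2' : (ν : ℝ) + 1 ≤ p := by exact_mod_cast h2
  have e1 : (1 - 1 / (p : ℝ)) ^ (4 * k ^ 2) ≤ Real.exp (-(4 * (k : ℝ) ^ 2 / p)) := by
    have h3 : 1 - 1 / (p : ℝ) ≤ Real.exp (-(1 / (p : ℝ))) := Real.one_sub_le_exp_neg _
    have h4 : 0 ≤ 1 - 1 / (p : ℝ) := by
      have : 1 / (p : ℝ) ≤ 1 := by rw [div_le_one hp0]; exact hp1
      linarith
    calc (1 - 1 / (p : ℝ)) ^ (4 * k ^ 2) ≤ Real.exp (-(1 / (p : ℝ))) ^ (4 * k ^ 2) :=
          pow_le_pow_left₀ h4 h3 _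
      _ = Real.exp (-(4 * (k : ℝ) ^ 2 / p)) := by
        rw [← Real.exp_nat_mul]
        congr 1
        push_cast
        ring
  rcases le_or_gt p (2 * k) with hc | hc
  · have hc' : (p : ℝ) ≤ 2 * k := by exact_mod_cast hc
    have h5 : (p : ℝ) ≤ 4 * (k : ℝ) ^ 2 / p := by
      rw [le_div_iff₀ hp0]
      nlinarith
    have h6 : Real.exp (-(4 * (k : ℝ) ^ 2 / p)) ≤ 1 / p := by
      calc Real.exp (-(4 * (k : ℝ) ^ 2 / p)) ≤ Real.exp (-(p : ℝ)) :=
            Real.exp_le_exp.2 (by linarith)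
        _ = 1 / Real.exp p := by rw [Real.exp_neg, one_div]
        _ ≤ 1 / p := by
          apply one_div_le_one_div_of_le hp0
          have := Real.add_one_le_exp (p : ℝ)
          linarith
    have h7 : 1 / (p : ℝ) ≤ 1 - (ν : ℝ) / p := by
      rw [le_sub_iff_add_le, ← add_div, div_le_one hp0]
      linarith
    linarith
  · have hc' : 2 * (k : ℝ) < p := by exact_mod_cast hc
    have h5 : (k : ℝ) / p ≤ 1 / 2 := by
      rw [div_le_iff₀ hp0]; linarith
    have h50 : 0 ≤ (k : ℝ) / p := by positivity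
    have h6 : Real.exp (-(4 * (k : ℝ) ^ 2 / p)) ≤ Real.exp (-(2 * (k / p))) := by
      apply Real.exp_le_exp.2
      have : 2 * ((k : ℝ) / p) ≤ 4 * (k : ℝ) ^ 2 / p := by
        rw [← mul_div_assoc]
        apply div_le_div_of_nonneg_right _ hp0.le
        nlinarith
      linarith
    have h7 : Real.exp (-(2 * ((k : ℝ) / p))) ≤ 1 - k / p := by
      rw [Real.exp_neg, inv_le_comm₀ (Real.exp_pos _) (by linarith)]
      have h8 : (1 - (k : ℝ) / p)⁻¹ ≤ 1 + 2 * (k / p) := by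
        rw [inv_le_iff_one_le_mul₀ (by linarith)]
        nlinarith
      have := Real.add_one_le_exp (2 * ((k : ℝ) / p))
      linarith
    have h9 : (ν : ℝ) / p ≤ k / p := div_le_div_of_nonneg_right h1' hp0.le
    linarith

/-- the sieve: integers without small prime factors in all `k` linear forms `b + M m + h` -/
theorem sieve (k : ℕ) (hk : 1 ≤ k) : ∃ K : ℕ, 1 ≤ K ∧ ∃ X₁ : ℕ, ∀ X : ℕ, X₁ ≤ X →
    ∀ (H : Finset ℕ) (M b : ℕ), H.card ≤ k → Admissible H → (∀ h ∈ H, Nat.Coprime (b + h) M) →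
    ∃ m : ℕ, m ≤ X ∧ ∀ h ∈ H, ∀ p : ℕ, p.Prime → p ∣ b + M * m + h →
      (X : ℝ) ^ (1 / (K : ℝ)) < p := by
  classical
  obtain ⟨K, x0, hK, hfund⟩ := sys_fund k hk (1 / 2) (by norm_num)
  obtain ⟨C, N0, hV⟩ := Vz_low
  have hK0 : (0 : ℝ) < K := by exact_mod_cast hK
  -- eventually `2 (log X) ^ (C m) < √X`
  have e1 : ∀ᶠ x : ℝ in atTop, 4 * Real.log x ^ (C * (4 * k ^ 2)) < x ^ (1 / 2 : ℝ) := by
    have h1 := (isLittleO_log_rpow_rpow_atTop (((C * (4 * k ^ 2) : ℕ) : ℝ))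
      (show (0 : ℝ) < 1 / 2 by norm_num)).def (show (0 : ℝ) < 1 / 8 by norm_num)
    filter_upwards [h1, eventually_gt_atTop (1 : ℝ)] with x hx hx1
    have h2 : 0 < Real.log x := Real.log_pos hx1
    rw [Real.norm_of_nonneg (by positivity), Real.norm_of_nonneg (by positivity),
      Real.rpow_natCast] at hx
    have h3 : 0 < x ^ (1 / 2 : ℝ) := by positivity
    linarith
  have e2 : ∀ᶠ x : ℝ in atTop, ((max x0 (max N0 3) : ℕ) : ℝ) + 1 ≤ x ^ (1 / (K : ℝ)) :=
    (tendsto_rpow_atTop (by positivity)).eventually_ge_atTop _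
  obtain ⟨X₁, hX₁⟩ := eventually_atTop.1 ((e1.and e2).and (eventually_ge_atTop (1 : ℝ)))
  refine ⟨K, hK, ⌈X₁⌉₊, fun X hX H M b hH hadm hcop => ?_⟩
  obtain ⟨⟨f1, f2⟩, f3⟩ := hX₁ X ((Nat.le_ceil _).trans (by exact_mod_cast hX))
  have hXpos : (0 : ℝ) < X := by linarith
  set y : ℕ := ⌊(X : ℝ) ^ (1 / (K : ℝ))⌋₊ with hy
  have hyX : (y : ℝ) ≤ (X : ℝ) ^ (1 / (K : ℝ)) := Nat.floor_le (by positivity)
  have hyM : max x0 (max N0 3) ≤ y := by
    apply Nat.le_floor
    linarith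
  have hyx0 : x0 ≤ y := (le_max_left _ _).trans hyM
  have hyN0 : N0 ≤ y := ((le_max_left _ _).trans (le_max_right _ _)).trans hyM
  have hy3 : 3 ≤ y := ((le_max_right _ _).trans (le_max_right _ _)).trans hyM
  have hyK : ((y ^ K : ℕ) : ℝ) ≤ X := by
    push_cast
    calc (y : ℝ) ^ K ≤ ((X : ℝ) ^ (1 / (K : ℝ))) ^ K := pow_le_pow_left₀ (Nat.cast_nonneg _) hyX _
      _ = X := by
        rw [← Real.rpow_natCast, ← Real.rpow_mul hXpos.le, one_div, inv_mul_cancel₀ hK0.ne',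
          Real.rpow_one]
  obtain ⟨Q, hQ⟩ : ∃ Q : ℕ → ℕ → Prop, ∀ p m, Q p m ↔ ∃ h ∈ H, p ∣ b + M * m + h :=
    ⟨_, fun _ _ => Iff.rfl⟩
  have hper : ∀ p n, Q p n ↔ Q p (n % p) := by
    intro p n
    rw [hQ, hQ]
    have : ∀ h, p ∣ b + M * n + h ↔ p ∣ b + M * (n % p) + h := by
      intro h
      have h1 : b + M * n + h ≡ b + M * (n % p) + h [MOD p] :=
        ((Nat.ModEq.refl b).add ((Nat.ModEq.refl M).mul (Nat.mod_modEq n p).symm)).add_right h
      exact h1.dvd_iff dvd_rfl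
    simp only [this]
  -- the number of classes
  have hcls : ∀ p : ℕ, p.Prime → nuB Q p ≤ k ∧ nuB Q p + 1 ≤ p := by
    intro p hp
    by_cases hpM : p ∣ M
    · have h0 : nuB Q p = 0 := by
        unfold nuB
        rw [Finset.card_eq_zero, Finset.filter_eq_empty_iff]
        intro m _ hm
        obtain ⟨h, hh, hd⟩ := (hQ p m).1 hm
        have h1 : p ∣ b + h := by
          have h2 : b + M * m + h = (b + h) + M * m := by ring
          rw [h2] at hd
          exact (Nat.dvd_add_left (dvd_mul_of_dvd_left hpM m)).1 hd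
        have h3 := Nat.dvd_gcd h1 hpM
        rw [hcop h hh] at h3
        exact hp.one_lt.ne' (Nat.dvd_one.1 h3)
      rw [h0]
      exact ⟨Nat.zero_le _, hp.pos⟩
    · have hcp : Nat.Coprime p M := (Nat.Prime.coprime_iff_not_dvd hp).2 hpM
      constructor
      · unfold nuB
        refine le_trans ?_ hH
        -- injection from classes to shifts
        have hch : ∀ m ∈ (range p).filter (fun m => Q p m), ∃ h ∈ H, p ∣ b + M * m + h := by
          intro m hm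
          exact (hQ p m).1 (mem_filter.1 hm).2
        choose! g hg1 hg2 using hch
        refine Finset.card_le_card_of_injOn g (fun m hm => mem_coe.2 (hg1 m (mem_coe.1 hm))) ?_
        intro m1 hm1' m2 hm2' heq
        have hm1 := mem_coe.1 hm1'
        have hm2 := mem_coe.1 hm2'
        have d1 := hg2 m1 hm1
        have d2 := hg2 m2 hm2
        rw [heq] at d1
        have h3 : b + M * m1 + g m2 ≡ b + M * m2 + g m2 [MOD p] := by
          have a1 : b + M * m1 + g m2 ≡ 0 [MOD p] := (Nat.modEq_zero_iff_dvd).2 d1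
          have a2 : b + M * m2 + g m2 ≡ 0 [MOD p] := (Nat.modEq_zero_iff_dvd).2 d2
          exact a1.trans a2.symm
        have h4 : M * m1 ≡ M * m2 [MOD p] := (Nat.ModEq.add_right_cancel' _ h3).add_left_cancel' _
        have h5 : m1 ≡ m2 [MOD p] := Nat.ModEq.cancel_left_of_coprime hcp h4
        have l1 : m1 < p := mem_range.1 (mem_filter.1 hm1).1
        have l2 : m2 < p := mem_range.1 (mem_filter.1 hm2).1
        unfold Nat.ModEq at h5
        rwa [Nat.mod_eq_of_lt l1, Nat.mod_eq_of_lt l2] at h5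
      · -- one class is free
        obtain ⟨m0, hm0⟩ := hadm p hp
        -- solve `b + M m ≡ m0`
        obtain ⟨m, hm⟩ : ∃ m : ℕ, b + M * m ≡ m0 [MOD p] := by
          have hinv : ∃ j : ℕ, M * j ≡ 1 [MOD p] := by
            obtain ⟨j, hj⟩ := Nat.exists_mul_mod_eq_one_of_coprime hcp.symm hp.one_lt
            exact ⟨j, by
              have := hj.2
              unfold Nat.ModEq
              rw [this, Nat.mod_eq_of_lt hp.one_lt]⟩
          obtain ⟨j, hj⟩ := hinv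
          have hneg : ∃ c : ℕ, b + c ≡ m0 [MOD p] := by
            refine ⟨m0 + (p - b % p), ?_⟩
            have hb : b % p < p := Nat.mod_lt _ hp.pos
            have h1 : b + (m0 + (p - b % p)) ≡ b % p + (m0 + (p - b % p)) [MOD p] :=
              (Nat.mod_modEq b p).symm.add_right _
            refine h1.trans ?_
            have h2 : b % p + (m0 + (p - b % p)) = m0 + p := by omega
            rw [h2]
            exact Nat.add_modEq_right
          obtain ⟨c, hc⟩ := hneg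
          refine ⟨j * c, ?_⟩
          have h1 : M * (j * c) ≡ c [MOD p] := by
            rw [← mul_assoc]
            simpa using hj.mul_right c
          exact ((Nat.ModEq.refl b).add h1).trans hc
        have hnot : ¬ Q p (m % p) := by
          rw [← hper, hQ]
          rintro ⟨h, hh, hd⟩
          apply hm0 h hh
          exact ((hm.add_right h).dvd_iff dvd_rfl).1 hd
        have hlt : nuB Q p < p := by
          unfold nuB
          calc ((range p).filter (fun r => Q p r)).card < (range p).card := by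
                apply Finset.card_lt_card
                rw [Finset.filter_ssubset]
                exact ⟨m % p, mem_range.2 (Nat.mod_lt _ hp.pos), hnot⟩
            _ = p := card_range p
        omega
  have hperB : PerB Q k := ⟨hper, fun p hp => (hcls p hp).1⟩
  have hmain := hfund (y ^ K) y hyx0 le_rfl Q hperB X
  set P : ℝ := ∏ p ∈ pz y, (1 - (nuB Q p : ℝ) / p) with hP
  have hlogy0 : 1 ≤ Real.log y := by
    rw [Real.le_log_iff_exp_le (by exact_mod_cast (by omega : 0 < y))]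
    have : Real.exp 1 < 3 := by
      have := Real.exp_one_lt_d9; linarith
    have h3 : (3 : ℝ) ≤ y := by exact_mod_cast hy3
    linarith
  have hP1 : 1 / Real.log y ^ (C * (4 * k ^ 2)) ≤ P := by
    have h1 : (Vz y) ^ (4 * k ^ 2) ≤ P := by
      rw [hP, Vz, ← Finset.prod_pow]
      apply Finset.prod_le_prod
      · intro p hp
        have hpp := (mem_pz.1 hp).2
        have : (1 : ℝ) ≤ p := by exact_mod_cast hpp.one_lt.le
        have : 1 / (p : ℝ) ≤ 1 := by rw [div_le_one (by linarith)]; exact this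
        apply pow_nonneg
        linarith
      · intro p hp
        have hpp := (mem_pz.1 hp).2
        exact factor_low k hk p _ hpp (hcls p hpp).1 (hcls p hpp).2
    have h2 := hV y hyN0
    calc 1 / Real.log y ^ (C * (4 * k ^ 2)) = (1 / Real.log y ^ C) ^ (4 * k ^ 2) := by
          rw [div_pow, one_pow, ← pow_mul]
      _ ≤ (Vz y) ^ (4 * k ^ 2) := by
        apply pow_le_pow_left₀ (by positivity) h2
      _ ≤ P := h1
  have hlogXy : Real.log y ≤ Real.log X := by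
    apply Real.log_le_log (by exact_mod_cast (by omega : 0 < y))
    calc (y : ℝ) ≤ (X : ℝ) ^ (1 / (K : ℝ)) := hyX
      _ ≤ (X : ℝ) ^ (1 : ℝ) := Real.rpow_le_rpow_of_exponent_le f3 (by
        rw [div_le_one hK0]; exact_mod_cast hK)
      _ = X := Real.rpow_one _
  have hpos : 0 < ((((Icc 1 X).filter (fun n : ℕ => ∀ p ∈ pz y, ¬ Q p n)).card : ℕ) : ℝ) := by
    have h1 := (abs_le.1 hmain).1
    have h2 : √((y ^ K : ℕ) : ℝ) ≤ (X : ℝ) ^ (1 / 2 : ℝ) := by
      rw [Real.sqrt_eq_rpow]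
      exact Real.rpow_le_rpow (Nat.cast_nonneg _) hyK (by norm_num)
    have h3 : (X : ℝ) ^ (1 / 2 : ℝ) < 1 / 2 * (X * P) := by
      have hL : 0 < Real.log y ^ (C * (4 * k ^ 2)) := by positivity
      have h4 : Real.log y ^ (C * (4 * k ^ 2)) ≤ Real.log X ^ (C * (4 * k ^ 2)) :=
        pow_le_pow_left₀ (by linarith) hlogXy _
      have h5 : (X : ℝ) = (X : ℝ) ^ (1 / 2 : ℝ) * (X : ℝ) ^ (1 / 2 : ℝ) := by
        rw [← Real.rpow_add hXpos]; norm_num
      have h6 : 0 < (X : ℝ) ^ (1 / 2 : ℝ) := by positivity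
      have h7 : 2 < (X : ℝ) ^ (1 / 2 : ℝ) * P := by
        calc (2 : ℝ) < 4 * Real.log X ^ (C * (4 * k ^ 2)) *
              (1 / Real.log y ^ (C * (4 * k ^ 2))) := by
              rw [mul_one_div, lt_div_iff₀ hL]
              nlinarith
          _ ≤ (X : ℝ) ^ (1 / 2 : ℝ) * P := by
            apply mul_le_mul f1.le hP1 (by positivity) h6.le
      calc (X : ℝ) ^ (1 / 2 : ℝ) = 1 / 2 * ((X : ℝ) ^ (1 / 2 : ℝ) * 2) := by ring
        _ < 1 / 2 * ((X : ℝ) ^ (1 / 2 : ℝ) * ((X : ℝ) ^ (1 / 2 : ℝ) * P)) := by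
          apply mul_lt_mul_of_pos_left _ (by norm_num)
          exact mul_lt_mul_of_pos_left h7 h6
        _ = 1 / 2 * (((X : ℝ) ^ (1 / 2 : ℝ) * (X : ℝ) ^ (1 / 2 : ℝ)) * P) := by ring
        _ = 1 / 2 * (X * P) := by rw [← h5]
    linarith
  have hcard : 0 < ((Icc 1 X).filter (fun n : ℕ => ∀ p ∈ pz y, ¬ Q p n)).card := by
    exact_mod_cast hpos
  obtain ⟨m, hm⟩ := Finset.card_pos.1 hcard
  rw [mem_filter, mem_Icc] at hm
  refine ⟨m, hm.1.2, fun h hh p hp hd => ?_⟩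
  by_contra hcon
  push Not at hcon
  have hpy : p ≤ y := Nat.le_floor hcon
  exact hm.2 p (mem_pz.2 ⟨hpy, hp⟩) ((hQ p m).2 ⟨h, hh, hd⟩)

/-- every short interval contains a target -/
theorem target_short (k : ℕ) (hk : 1 ≤ k) (θ : ℝ) (h0 : 0 < θ) (h1 : θ ≤ 1) :
    ∃ (r : ℕ) (δ : ℝ), 0 < r ∧ 0 < δ ∧ ∃ X₀ : ℝ, ∀ x : ℝ, X₀ ≤ x → ∀ (H : Finset ℕ) (M a : ℕ),
      H.card ≤ k → Admissible H → 0 < M → (∀ h ∈ H, Nat.Coprime (a + h) M) →
      ∃ y, x ≤ y ∧ y ≤ x + x ^ θ ∧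
        ∀ t, y ≤ t → t ≤ y + 1 / 2 → Target r δ H M a ⌊t⌋₊ := by
  obtain ⟨K, hK, X₁, hs⟩ := sieve k hk
  have hK0 : (0 : ℝ) < K := by exact_mod_cast hK
  obtain ⟨r, hr⟩ := exists_nat_ge (8 * K / θ)
  have hr0' : (0 : ℝ) < r := lt_of_lt_of_le (by positivity) hr
  have hr0 : 0 < r := by exact_mod_cast hr0'
  have e1 : ∀ᶠ x : ℝ in atTop, 8 ≤ x ^ (θ / 4) :=
    (tendsto_rpow_atTop (by positivity)).eventually_ge_atTop _
  have e2 : ∀ᶠ x : ℝ in atTop, (X₁ : ℝ) + 1 ≤ x ^ (θ / 2) :=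
    (tendsto_rpow_atTop (by positivity)).eventually_ge_atTop _
  obtain ⟨X₀, hX₀⟩ := eventually_atTop.1 ((e1.and e2).and (eventually_ge_atTop (4 : ℝ)))
  refine ⟨r, θ / 8, hr0, by positivity, X₀, fun x hx H M a hH hadm hM hcop => ?_⟩
  obtain ⟨⟨f1, f2⟩, f3⟩ := hX₀ x hx
  have hx0 : 0 < x := by linarith
  have hxx : x ^ θ ≤ x := by
    calc x ^ θ ≤ x ^ (1 : ℝ) := Real.rpow_le_rpow_of_exponent_le (by linarith) h1
      _ = x := Real.rpow_one x
  have hsplit : x ^ θ = x ^ (θ / 4) * x ^ (θ / 4) * x ^ (θ / 2) := by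
    rw [← Real.rpow_add hx0, ← Real.rpow_add hx0]; congr 1; ring
  have hq2 : 1 ≤ x ^ (θ / 2) := Real.one_le_rpow (by linarith) (by positivity)
  have hq4 : 0 < x ^ (θ / 4) := by positivity
  have hA : x ^ (θ / 4) ≤ x ^ θ / 8 := by
    rw [hsplit, le_div_iff₀ (by norm_num)]
    have : x ^ (θ / 4) * 8 ≤ x ^ (θ / 4) * x ^ (θ / 4) := by nlinarith
    nlinarith [mul_pos hq4 hq4]
  have h8 : 8 ≤ x ^ θ / 8 := f1.trans hA
  -- the general step
  have step : ∀ M' a' : ℕ, 0 < M' → (M' : ℝ) ≤ x ^ (θ / 4) → (∀ h ∈ H, Nat.Coprime (a' + h) M') →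
      ∃ N : ℕ, x ≤ N ∧ (N : ℝ) ≤ x + x ^ θ ∧ N ≡ a' [MOD M'] ∧
        ∀ h ∈ H, ∀ p : ℕ, p.Prime → p ∣ N + h → (N : ℝ) ^ (1 / (r : ℝ)) < p := by
    intro M' a' hM' hMx hcop'
    have hM'0 : (0 : ℝ) < M' := by exact_mod_cast hM'
    have hM'1 : (1 : ℝ) ≤ M' := by exact_mod_cast hM'
    -- a start in the class
    obtain ⟨b, hb1, hb2, hb3⟩ : ∃ b : ℕ, ⌈x⌉₊ ≤ b ∧ b < ⌈x⌉₊ + M' ∧ b ≡ a' [MOD M'] := by
      refine ⟨⌈x⌉₊ + (a' + (M' - ⌈x⌉₊ % M')) % M', by omega, ?_, ?_⟩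
      · have := Nat.mod_lt (a' + (M' - ⌈x⌉₊ % M')) hM'
        omega
      · have hc : ⌈x⌉₊ % M' < M' := Nat.mod_lt _ hM'
        have g1 : ⌈x⌉₊ + (a' + (M' - ⌈x⌉₊ % M')) % M' ≡
            ⌈x⌉₊ % M' + (a' + (M' - ⌈x⌉₊ % M')) [MOD M'] :=
          ((Nat.mod_modEq ⌈x⌉₊ M').symm).add (Nat.mod_modEq _ _)
        refine g1.trans ?_
        have g2 : ⌈x⌉₊ % M' + (a' + (M' - ⌈x⌉₊ % M')) = a' + M' := by omega
        rw [g2]
        exact Nat.add_modEq_right
    have hcopb : ∀ h ∈ H, Nat.Coprime (b + h) M' := by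
      intro h hh
      have g1 : Nat.gcd (b + h) M' = Nat.gcd (a' + h) M' := (hb3.add_right h).gcd_eq
      unfold Nat.Coprime
      rw [g1]
      exact hcop' h hh
    set X : ℕ := ⌊x ^ θ / 4 / M'⌋₊ with hX
    have hXle : (X : ℝ) ≤ x ^ θ / 4 / M' := Nat.floor_le (by positivity)
    have hXge : x ^ (θ / 2) ≤ X := by
      have g1 : x ^ θ / 4 / M' < X + 1 := Nat.lt_floor_add_one _
      have g2 : x ^ (θ / 4) * x ^ (θ / 2) / 4 ≤ x ^ θ / 4 / M' := by
        rw [div_div, div_le_div_iff₀ (by norm_num) (by positivity), hsplit]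
        have : x ^ (θ / 4) * x ^ (θ / 2) * (M' : ℝ) ≤ x ^ (θ / 4) * x ^ (θ / 2) * x ^ (θ / 4) :=
          mul_le_mul_of_nonneg_left hMx (by positivity)
        nlinarith
      have g3 : 2 * x ^ (θ / 2) ≤ x ^ (θ / 4) * x ^ (θ / 2) / 4 := by nlinarith
      linarith
    have hXX : X₁ ≤ X := by
      have : (X₁ : ℝ) ≤ X := by linarith
      exact_mod_cast this
    obtain ⟨m, hm1, hm2⟩ := hs X hXX H M' b hH hadm hcopb
    have hm1' : (m : ℝ) ≤ X := by exact_mod_cast hm1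
    have hc1 : (⌈x⌉₊ : ℝ) < x + 1 := Nat.ceil_lt_add_one hx0.le
    have hc2 : x ≤ (⌈x⌉₊ : ℝ) := Nat.le_ceil x
    have hb1' : (⌈x⌉₊ : ℝ) ≤ b := by exact_mod_cast hb1
    have hb2' : (b : ℝ) ≤ ⌈x⌉₊ + M' := by exact_mod_cast hb2.le
    have hMm : (M' : ℝ) * m ≤ x ^ θ / 4 := by
      calc (M' : ℝ) * m ≤ M' * (x ^ θ / 4 / M') :=
            mul_le_mul_of_nonneg_left (hm1'.trans hXle) hM'0.le
        _ = x ^ θ / 4 := by field_simp
    have hMm0 : 0 ≤ (M' : ℝ) * m := by positivity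
    have hN1 : x ≤ ((b + M' * m : ℕ) : ℝ) := by push_cast; linarith
    have hN2 : ((b + M' * m : ℕ) : ℝ) ≤ x + x ^ θ := by push_cast; linarith
    refine ⟨b + M' * m, hN1, hN2, ?_, ?_⟩
    · have : b + M' * m ≡ b [MOD M'] := by
        unfold Nat.ModEq
        rw [Nat.add_mul_mod_self_left]
      exact this.trans hb3
    · intro h hh p hp hd
      refine lt_of_le_of_lt ?_ (hm2 h hh p hp hd)
      have hNx : ((b + M' * m : ℕ) : ℝ) ≤ x ^ (2 : ℝ) := by
        rw [Real.rpow_two]; nlinarith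
      calc ((b + M' * m : ℕ) : ℝ) ^ (1 / (r : ℝ)) ≤ (x ^ (2 : ℝ)) ^ (1 / (r : ℝ)) :=
            Real.rpow_le_rpow (by positivity) hNx (by positivity)
        _ = x ^ (2 / (r : ℝ)) := by rw [← Real.rpow_mul hx0.le]; congr 1; ring
        _ ≤ x ^ (θ / 2 * (1 / (K : ℝ))) := by
          apply Real.rpow_le_rpow_of_exponent_le (by linarith)
          rw [div_le_iff₀ hr0']
          have g1 : 8 * (K : ℝ) ≤ r * θ := by
            rw [div_le_iff₀ h0] at hr
            exact hr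
          have g2 : θ / 2 * (1 / (K : ℝ)) * r = (r * θ) / (2 * K) := by field_simp
          rw [g2, le_div_iff₀ (by positivity)]
          linarith
        _ = (x ^ (θ / 2)) ^ (1 / (K : ℝ)) := by rw [← Real.rpow_mul hx0.le]
        _ ≤ (X : ℝ) ^ (1 / (K : ℝ)) := Real.rpow_le_rpow (by positivity) hXge (by positivity)
  have floor : ∀ n : ℕ, ∀ t : ℝ, (n : ℝ) ≤ t → t ≤ n + 1 / 2 → ⌊t⌋₊ = n := by
    intro n t g1 g2
    have hn0 : (0 : ℝ) ≤ n := Nat.cast_nonneg n
    rw [Nat.floor_eq_iff (by linarith)]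
    exact ⟨g1, by linarith⟩
  by_cases hMx : (M : ℝ) ≤ x ^ (θ / 4)
  · obtain ⟨N, n1, n2, n3, n4⟩ := step M a hM hMx hcop
    refine ⟨N, n1, n2, fun t ht1 ht2 => ?_⟩
    rw [floor N t ht1 ht2]
    exact ⟨n4, fun _ => n3⟩
  · obtain ⟨N, n1, n2, -, n4⟩ := step 1 0 one_pos (by
      rw [Nat.cast_one]
      exact Real.one_le_rpow (by linarith) (by positivity)) (fun h _ => Nat.coprime_one_right _)
    refine ⟨N, n1, n2, fun t ht1 ht2 => ?_⟩
    rw [floor N t ht1 ht2]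
    refine ⟨n4, fun hMN => absurd ?_ hMx⟩
    have hNx : (N : ℝ) ≤ x ^ (2 : ℝ) := by
      rw [Real.rpow_two]; nlinarith
    calc (M : ℝ) ≤ (N : ℝ) ^ (θ / 8) := hMN
      _ ≤ (x ^ (2 : ℝ)) ^ (θ / 8) := Real.rpow_le_rpow (Nat.cast_nonneg _) hNx (by positivity)
      _ = x ^ (θ / 4) := by rw [← Real.rpow_mul hx0.le]; congr 1; ring

/-- **Mills-type constants for almost prime quadruplets and other tuples.** -/
theorem result (k : ℕ) (lam s : ℝ) (hlam : 1 < lam) (hs : s < 1) :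
    ∃ (r : ℕ) (δ : ℝ), 0 < r ∧ 0 < δ ∧
    ∀ v n : ℕ → ℝ, 0 < n 0 → Monotone n → (∀ l, 0 < v l) → ∀ a b : ℝ, 0 ≤ a → a < b →
    (∀ t, a < t → t < b → 1 < v 0 * t ^ n 0) →
    (∀ l t, a < t → t < b → (v l * t ^ n l) ^ lam ≤ v (l + 1) * t ^ n (l + 1)) →
    ∀ (H : ℕ → Finset ℕ) (M c : ℕ → ℕ), (∀ l, (H l).card ≤ k ∧ Admissible (H l)) →
    (∀ l, 0 < M l ∧ ∀ h ∈ H l, Nat.Coprime (c l + h) (M l)) →
    ENNReal.ofReal s ≤
      dimH {t : ℝ | a < t ∧ t < b ∧ ∃ l₀, ∀ l, l₀ ≤ l →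
        Target r δ (H l) (M l) (c l) ⌊v l * t ^ n l⌋₊} := by
  have hl0 : 0 < lam := by linarith
  have hδ0 : 0 < 1 - 1 / lam := by
    have : 1 / lam < 1 := by rw [div_lt_one hl0]; exact hlam
    linarith
  set θ := min 1 ((1 - 1 / lam) * (1 - s) / 2) with hθ
  have hD : 0 < (1 - 1 / lam) * (1 - s) := mul_pos hδ0 (by linarith)
  have hθ0 : 0 < θ := lt_min one_pos (by linarith)
  have hθ1 : θ ≤ 1 := min_le_left _ _
  have hθ2 : θ < (1 - 1 / lam) * (1 - s) := lt_of_le_of_lt (min_le_right _ _) (by linarith)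
  obtain ⟨r, δ, hr, hδ, X₀, hX⟩ := target_short (max k 1) (le_max_right _ _) θ hθ0 hθ1
  exact ⟨r, δ, hr, hδ, fun v n hn0 hn hv a b ha hab hone hgrow H M c hH hM =>
    Pool.Agent.K6.H83.MC.mills_pow hlam ha hab hn0 hn hv hone hgrow s θ hs hθ0.le hθ2
      (fun l t => Target r δ (H l) (M l) (c l) ⌊t⌋₊) X₀
      (fun l x hx => hX x hx (H l) (M l) (c l) ((hH l).1.trans (le_max_left _ _)) (hH l).2
        (hM l).1 (hM l).2)⟩

end Pool.Agent.Results.MP_fc51f7_nt.MillsQuadruplets
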